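import Pool.Agent.H27.HB.TA
import Pool.Agent.H27.HB.TD

/-!
# Row SPB of the board hbe: dichotomy for all balls
-/

set_option autoImplicit false

namespace Pool.Agent.H61.HB
open MeasureTheory Set Filter Topology Pool.Agent.H80.HS Pool.Agent.H93.HQ Pool.Agent.H27.HB
open scoped ContDiff ENNReal

theorem dil_mul {n : ℕ} (r : ℝ) (a b : H n) : dil r (mul a b) = mul (dil r a) (dil r b) := by
  unfold dil mul
  refine Prod.ext ?_ (Prod.ext ?_ ?_)
  · simp [smul_add]
  · simp [smul_add]
  · simp only [inner_smul_left, inner_smul_right, conj_trivial]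
    ring

theorem mul_neg_mul {n : ℕ} (c z : H n) : mul c (mul (-c) z) = z := by
  unfold mul
  refine Prod.ext ?_ (Prod.ext ?_ ?_)
  · simp
  · simp
  · simp only [Prod.fst_neg, Prod.snd_neg, inner_neg_left, inner_neg_right,
      inner_add_right, real_inner_comm]
    ring

theorem pf_SPB (hSPL : T_SPL) (hACT : T_ACT) (hACV : T_ACV) : T_SPB := by
  intro n hn a b η ha hab hb hη
  obtain ⟨ε, Λ, hε, hΛ, h⟩ := hSPL n hn a b η ha hab hb hη
  refine ⟨ε, Λ, hε, hΛ, fun p S hp1 hp2 hS φ hφ c r hr => ?_⟩
  have hp : 1 < p := lt_of_lt_of_le ha hp1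
  have hp' : p < 2 * n + 2 := lt_of_le_of_lt hp2 hb
  set e : H n := dil r⁻¹ (-c) with he
  obtain ⟨-, -, h3, h4, h5, -, -⟩ := hACV n hn p hp hp' e r hr
  obtain ⟨h6, h7⟩ := hACT n hn p hp hp' e r hr φ hφ.1
  have hkey : ∀ y : H n, mul c (dil r (mul e y)) = dil r y := by
    intro y
    rw [dil_mul, he, dil_dil_inv hr.ne', mul_neg_mul]
  have hN : ∀ y : H n, N (mul c (dil r (mul e y))) = r * N y := by
    intro y
    rw [hkey, N_dil hr.le]
  have hnear : Near p S ε (act p e r φ) := by
    refine ⟨h6, ?_, ?_⟩
    · rw [h3]
      exact hφ.2.1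
    · rw [h7, h5]
      exact hφ.2.2
  have hcont : Continuous fun z : H n => N (mul c z) := continuous_N.comp (continuous_mul c)
  rcases h p S hp1 hp2 hS _ hnear with h8 | h8
  · left
    have h9 := h4 φ (indicator {z | N (mul c z) ≤ r} fun _ => 1)
    have e1 : ∀ z : H n, |φ z| ^ ps n p * indicator {z | N (mul c z) ≤ r} (fun _ => (1 : ℝ)) z =
        indicator {z | N (mul c z) ≤ r} (fun z => |φ z| ^ ps n p) z := by
      intro z
      by_cases hz : z ∈ {z | N (mul c z) ≤ r}
      · rw [indicator_of_mem hz, indicator_of_mem hz, mul_one]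
      · rw [indicator_of_notMem hz, indicator_of_notMem hz, mul_zero]
    have e2 : ∀ y : H n, |act p e r φ y| ^ ps n p *
        indicator {z | N (mul c z) ≤ r} (fun _ => (1 : ℝ)) (dil r (mul e y)) =
        indicator {z | N z ≤ 1} (fun z => |act p e r φ z| ^ ps n p) y := by
      intro y
      by_cases hy : N y ≤ 1
      · have h10 : dil r (mul e y) ∈ {z | N (mul c z) ≤ r} := by
          show N (mul c (dil r (mul e y))) ≤ r
          rw [hN]
          nlinarith
        rw [indicator_of_mem h10, indicator_of_mem (show y ∈ {z | N z ≤ 1} from hy), mul_one]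
      · have h10 : dil r (mul e y) ∉ {z | N (mul c z) ≤ r} := by
          show ¬ N (mul c (dil r (mul e y))) ≤ r
          rw [hN]
          intro h11
          exact hy (by nlinarith)
        rw [indicator_of_notMem h10, indicator_of_notMem (show y ∉ {z | N z ≤ 1} from hy),
          mul_zero]
    rw [← integral_indicator (isClosed_le hcont continuous_const).measurableSet]
    rw [← integral_congr_ae (Eventually.of_forall e1), ← h9,
      integral_congr_ae (Eventually.of_forall e2),
      integral_indicator (isClosed_le continuous_N continuous_const).measurableSet]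
    exact h8
  · right
    have h9 := h4 φ (indicator {z | Λ * r < N (mul c z)} fun _ => 1)
    have e1 : ∀ z : H n, |φ z| ^ ps n p *
        indicator {z | Λ * r < N (mul c z)} (fun _ => (1 : ℝ)) z =
        indicator {z | Λ * r < N (mul c z)} (fun z => |φ z| ^ ps n p) z := by
      intro z
      by_cases hz : z ∈ {z | Λ * r < N (mul c z)}
      · rw [indicator_of_mem hz, indicator_of_mem hz, mul_one]
      · rw [indicator_of_notMem hz, indicator_of_notMem hz, mul_zero]
    have e2 : ∀ y : H n, |act p e r φ y| ^ ps n p *
        indicator {z | Λ * r < N (mul c z)} (fun _ => (1 : ℝ)) (dil r (mul e y)) =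
        indicator {z | Λ < N z} (fun z => |act p e r φ z| ^ ps n p) y := by
      intro y
      by_cases hy : Λ < N y
      · have h10 : dil r (mul e y) ∈ {z | Λ * r < N (mul c z)} := by
          show Λ * r < N (mul c (dil r (mul e y)))
          rw [hN]
          nlinarith
        rw [indicator_of_mem h10, indicator_of_mem (show y ∈ {z | Λ < N z} from hy), mul_one]
      · have h10 : dil r (mul e y) ∉ {z | Λ * r < N (mul c z)} := by
          show ¬ Λ * r < N (mul c (dil r (mul e y)))
          rw [hN]
          intro h11
          exact hy (by nlinarith)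
        rw [indicator_of_notMem h10, indicator_of_notMem (show y ∉ {z | Λ < N z} from hy),
          mul_zero]
    rw [← integral_indicator (isOpen_lt continuous_const hcont).measurableSet]
    rw [← integral_congr_ae (Eventually.of_forall e1), ← h9,
      integral_congr_ae (Eventually.of_forall e2),
      integral_indicator (isOpen_lt continuous_const continuous_N).measurableSet]
    exact h8

end Pool.Agent.H61.HB
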