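import Pool.Agent.H27.HB.TA
import Pool.Agent.H27.HB.TD

/-!
# Row TRM of the board hbe: smooth truncation from below
-/

set_option autoImplicit false

namespace Pool.Agent.H61.HB
open MeasureTheory Set Filter Topology Pool.Agent.H80.HS Pool.Agent.H93.HQ Pool.Agent.H27.HB
open scoped ContDiff ENNReal

/-- the truncation -/
noncomputable def TT (s : ℝ) : ℝ := s * Real.smoothTransition ((s ^ 2 - 1) / 3)

theorem TT_contDiff : ContDiff ℝ ∞ TT := by
  unfold TT
  exact contDiff_id.mul (Real.smoothTransition.contDiff.comp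
    (((contDiff_id.pow 2).sub contDiff_const).div_const 3))

theorem TT_abs (s : ℝ) : |TT s| ≤ |s| := by
  unfold TT
  rw [abs_mul, abs_of_nonneg (Real.smoothTransition.nonneg _)]
  exact mul_le_of_le_one_right (abs_nonneg _) (Real.smoothTransition.le_one _)

theorem TT_zero {s : ℝ} (h : |s| ≤ 1) : TT s = 0 := by
  unfold TT
  rw [Real.smoothTransition.zero_of_nonpos, mul_zero]
  have : s ^ 2 ≤ 1 := by
    rw [← sq_abs]
    nlinarith [abs_nonneg s]
  linarith

theorem TT_id {s : ℝ} (h : 2 ≤ |s|) : TT s = s := by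
  unfold TT
  rw [Real.smoothTransition.one_of_one_le, mul_one]
  have : 4 ≤ s ^ 2 := by
    rw [← sq_abs]
    nlinarith [abs_nonneg s]
  linarith

theorem TT_deriv : ∃ C : ℝ, 0 < C ∧ ∀ s, |deriv TT s| ≤ C := by
  have hc : Continuous (deriv TT) := TT_contDiff.continuous_deriv (by simp)
  obtain ⟨C, hC⟩ := (isCompact_Icc (a := (-2 : ℝ)) (b := 2)).exists_bound_of_continuousOn
    hc.continuousOn
  refine ⟨max C 1, lt_max_of_lt_right one_pos, fun s => ?_⟩
  by_cases hs : s ∈ Icc (-2 : ℝ) 2
  · exact (hC s hs).trans (le_max_left _ _)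
  · have h2 : 2 < |s| := by
      by_contra h
      exact hs (abs_le.1 (not_lt.1 h))
    have h3 : TT =ᶠ[𝓝 s] id := by
      filter_upwards [(continuous_abs.tendsto s).eventually (lt_mem_nhds h2)] with x hx
      exact TT_id (le_of_lt hx)
    rw [h3.deriv_eq, deriv_id, abs_one]
    exact le_max_right _ _

theorem pf_TRM (hHGA : T_HGA) (hHGC : T_HGC) : T_TRM := by
  obtain ⟨C, hC, hD⟩ := TT_deriv
  refine ⟨C, hC, fun n M φ hM hφ => ?_⟩
  let F : ℝ → ℝ := fun s => M * TT (s / M)
  have hF : ContDiff ℝ ∞ F := contDiff_const.mul (TT_contDiff.comp (contDiff_id.div_const M))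
  have hF0 : F 0 = 0 := by
    show M * TT (0 / M) = 0
    rw [zero_div, TT_zero (by simp), mul_zero]
  have hFd : ∀ s, HasDerivAt F (deriv TT (s / M)) s := by
    intro s
    have h1 : HasDerivAt TT (deriv TT (s / M)) (s / M) :=
      (TT_contDiff.differentiable (by simp) _).hasDerivAt
    have h2 : HasDerivAt (fun s : ℝ => s / M) (1 / M) s := (hasDerivAt_id s).div_const M
    have h3 := (h1.comp s h2).const_mul M
    have h4 : M * (deriv TT (s / M) * (1 / M)) = deriv TT (s / M) := by
      field_simp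
    rw [← h4]
    exact h3
  refine ⟨fun z => F (φ z), ⟨hF.comp hφ.1, hφ.2.comp_left hF0⟩, fun z => ?_, fun z hz => ?_,
    fun z hz => ?_, fun z => ?_⟩
  · show |M * TT (φ z / M)| ≤ |φ z|
    rw [abs_mul, abs_of_pos hM]
    calc M * |TT (φ z / M)| ≤ M * |φ z / M| := mul_le_mul_of_nonneg_left (TT_abs _) hM.le
      _ = |φ z| := by
        rw [abs_div, abs_of_pos hM]
        field_simp
  · show M * TT (φ z / M) = 0
    rw [TT_zero, mul_zero]
    rw [abs_div, abs_of_pos hM, div_le_one hM]
    exact hz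
  · show M * TT (φ z / M) = φ z
    rw [TT_id]
    · field_simp
    · rw [abs_div, abs_of_pos hM, le_div_iff₀ hM]
      exact hz
  · have hd : DifferentiableAt ℝ φ z := hφ.1.differentiable (by simp) z
    have h1 := (hHGA n φ φ z hd hd).2.2.1 F (deriv TT (φ z / M)) (hFd (φ z))
    rw [h1, norm_smul, Real.norm_eq_abs]
    exact mul_le_mul_of_nonneg_right (hD _) (norm_nonneg _)

end Pool.Agent.H61.HB
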